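import Pool.Agent.Helper19_RFK.Stmts

set_option autoImplicit false

open MeasureTheory Set Pool.Agent.Helper19_LogPot

namespace Pool.Agent.RFK.H50

theorem log_sub_sq_le {a b : ℝ} (ha : 0 < a) (hb : 0 < b) :
    (Real.log a - Real.log b) ^ 2 ≤ 4 * |a - b| * (a⁻¹ + b⁻¹) := by
  -- the case `b ≤ a`
  have key : ∀ a b : ℝ, 0 < b → b ≤ a →
      (Real.log a - Real.log b) ^ 2 ≤ 4 * |a - b| * (a⁻¹ + b⁻¹) := by
    intro a b hb hab
    have ha : 0 < a := lt_of_lt_of_le hb hab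
    have h1 : Real.log a - Real.log b = 2 * Real.log (Real.sqrt (a / b)) := by
      rw [Real.log_sqrt (by positivity), Real.log_div ha.ne' hb.ne']
      ring
    have h2 : 1 ≤ Real.sqrt (a / b) := by
      rw [Real.one_le_sqrt, le_div_iff₀ hb]
      linarith
    have h3 : Real.log (Real.sqrt (a / b)) ≤ Real.sqrt (a / b) - 1 :=
      Real.log_le_sub_one_of_pos (by linarith)
    have h4 : 0 ≤ Real.log (Real.sqrt (a / b)) := Real.log_nonneg h2
    have h5 : (Real.sqrt (a / b) - 1) ^ 2 ≤ a / b - 1 := by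
      have := Real.sq_sqrt (show 0 ≤ a / b by positivity)
      nlinarith
    have h6 : (Real.log a - Real.log b) ^ 2 ≤ 4 * (a / b - 1) := by
      rw [h1]
      have : Real.log (Real.sqrt (a / b)) ^ 2 ≤ (Real.sqrt (a / b) - 1) ^ 2 :=
        pow_le_pow_left₀ h4 h3 2
      nlinarith
    refine h6.trans ?_
    rw [abs_of_nonneg (by linarith)]
    have h7 : a / b - 1 = (a - b) * b⁻¹ := by field_simp
    rw [h7]
    have h8 : 0 ≤ (a - b) * a⁻¹ := mul_nonneg (by linarith) (by positivity)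
    nlinarith
  rcases le_total b a with h | h
  · exact key a b hb h
  · have := key b a ha h
    rw [abs_sub_comm, add_comm (a⁻¹)]
    calc (Real.log a - Real.log b) ^ 2 = (Real.log b - Real.log a) ^ 2 := by ring
      _ ≤ _ := this

theorem inv_norm_sub {ρ : ℝ} {x : ℂ} (hx : x ∈ Metric.closedBall (0 : ℂ) ρ) :
    IntegrableOn (fun y : ℂ => ‖x - y‖⁻¹) (Metric.ball 0 ρ) ∧
      ∫ y in Metric.ball (0 : ℂ) ρ, ‖x - y‖⁻¹ ≤ ∫ z in Metric.ball (0 : ℂ) (2 * ρ), ‖z‖⁻¹ := by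
  set g : ℂ → ℝ := (Metric.ball (0 : ℂ) (2 * ρ)).indicator fun z => ‖z‖⁻¹ with hg
  have hgi : Integrable g := (integrable_indicator_iff Metric.isOpen_ball.measurableSet).2
    (integrableOn_inv_norm (2 * ρ))
  have hgx : Integrable fun y => g (x - y) := hgi.comp_sub_left x
  have heq : ∀ y ∈ Metric.ball (0 : ℂ) ρ, ‖x - y‖⁻¹ = g (x - y) := by
    intro y hy
    rw [hg, indicator_of_mem]
    rw [mem_ball_zero_iff] at hy ⊢
    rw [mem_closedBall_zero_iff] at hx
    calc ‖x - y‖ ≤ ‖x‖ + ‖y‖ := norm_sub_le _ _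
      _ < 2 * ρ := by linarith
  refine ⟨hgx.integrableOn.congr_fun (fun y hy => (heq y hy).symm)
    Metric.isOpen_ball.measurableSet, ?_⟩
  rw [setIntegral_congr_fun Metric.isOpen_ball.measurableSet heq]
  have hg0 : ∀ z, 0 ≤ g z := fun z => indicator_nonneg (fun z _ => by positivity) z
  calc ∫ y in Metric.ball (0 : ℂ) ρ, g (x - y) ≤ ∫ y, g (x - y) :=
        setIntegral_le_integral hgx (Filter.Eventually.of_forall fun y => hg0 _)
    _ = ∫ z, g z := integral_sub_left_eq_self g volume x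
    _ = _ := by rw [hg, integral_indicator Metric.isOpen_ball.measurableSet]

theorem eqc : EqcStmt := by
  intro ρ _ ε hε
  set C : ℝ := ∫ z in Metric.ball (0 : ℂ) (2 * ρ), ‖z‖⁻¹ with hC
  have hC0 : 0 ≤ C := setIntegral_nonneg Metric.isOpen_ball.measurableSet
    fun z _ => by positivity
  refine ⟨ε / (8 * C + 1), by positivity, ?_⟩
  intro x hx x' hx' hd
  obtain ⟨i1, l1⟩ := inv_norm_sub hx
  obtain ⟨i2, l2⟩ := inv_norm_sub hx'
  set d : ℝ := dist x x' with hdd
  have hd0 : 0 ≤ d := dist_nonneg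
  have hbound : ∫ y in Metric.ball (0 : ℂ) ρ, (Real.log ‖x - y‖ - Real.log ‖x' - y‖) ^ 2 ≤
      ∫ y in Metric.ball (0 : ℂ) ρ, 4 * d * (‖x - y‖⁻¹ + ‖x' - y‖⁻¹) := by
    refine integral_mono_of_nonneg (Filter.Eventually.of_forall fun y => sq_nonneg _)
      ((i1.add i2).const_mul (4 * d)) ?_
    have hnull : ∀ᵐ y ∂(volume.restrict (Metric.ball (0 : ℂ) ρ)), y ≠ x ∧ y ≠ x' := by
      refine ae_restrict_of_ae ?_
      have h1 : ∀ᵐ y : ℂ, y ≠ x := by
        rw [ae_iff]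
        simp
      have h2 : ∀ᵐ y : ℂ, y ≠ x' := by
        rw [ae_iff]
        simp
      filter_upwards [h1, h2] with y h1 h2
      exact ⟨h1, h2⟩
    filter_upwards [hnull] with y hy
    have e1 : 0 < ‖x - y‖ := norm_pos_iff.2 (sub_ne_zero.2 hy.1.symm)
    have e2 : 0 < ‖x' - y‖ := norm_pos_iff.2 (sub_ne_zero.2 hy.2.symm)
    refine (log_sub_sq_le e1 e2).trans ?_
    refine mul_le_mul_of_nonneg_right ?_ (by positivity)
    refine mul_le_mul_of_nonneg_left ?_ (by norm_num)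
    refine (abs_norm_sub_norm_le _ _).trans ?_
    rw [hdd, dist_eq_norm]
    apply le_of_eq
    congr 1
    ring
  have hval : ∫ y in Metric.ball (0 : ℂ) ρ, 4 * d * (‖x - y‖⁻¹ + ‖x' - y‖⁻¹) ≤ 4 * d * (2 * C) := by
    rw [integral_const_mul, integral_add i1 i2]
    refine mul_le_mul_of_nonneg_left ?_ (by positivity)
    linarith
  refine (hbound.trans hval).trans_lt ?_
  have h8 : 0 < 8 * C + 1 := by positivity
  have h9 : d * (8 * C + 1) < ε := by
    rwa [← lt_div_iff₀ h8]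
  nlinarith

end Pool.Agent.RFK.H50
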