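import Pool.Agent.Helper19_RFK.Stmts

set_option autoImplicit false

open Filter Topology

namespace Pool.Agent.RFK.H50

theorem spec : SpecStmt := by
  intro H _ _ _ T t b hsym hcomp ht hno hb
  -- the infimum of the quadratic form
  set S : Set ℝ := {r | ∃ x : H, ‖x‖ = 1 ∧ inner ℝ (T x) x = r} with hS
  have hne : S.Nonempty := by
    refine ⟨_, ‖b‖⁻¹ • b, ?_, rfl⟩
    rw [norm_smul, norm_inv, norm_norm, inv_mul_cancel₀ (norm_ne_zero_iff.2 hb)]
  have hbdd : BddBelow S := by
    refine ⟨-‖T‖, ?_⟩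
    rintro _ ⟨x, hx, rfl⟩
    have h1 := abs_real_inner_le_norm (T x) x
    have h2 := T.le_opNorm x
    rw [hx, mul_one] at h1 h2
    have := (abs_le.1 (h1.trans h2)).1
    exact this
  set m : ℝ := sInf S with hm
  have hmle : ∀ x : H, m * ‖x‖ ^ 2 ≤ inner ℝ (T x) x := by
    intro x
    by_cases hx : x = 0
    · simp [hx]
    · have hx' : ‖x‖ ≠ 0 := norm_ne_zero_iff.2 hx
      have h1 : inner ℝ (T (‖x‖⁻¹ • x)) (‖x‖⁻¹ • x) ∈ S := by
        refine ⟨_, ?_, rfl⟩
        rw [norm_smul, norm_inv, norm_norm, inv_mul_cancel₀ hx']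
      have h2 := csInf_le hbdd h1
      rw [map_smul, real_inner_smul_left, real_inner_smul_right] at h2
      have h3 : ‖x‖⁻¹ * (‖x‖⁻¹ * inner ℝ (T x) x) = inner ℝ (T x) x / ‖x‖ ^ 2 := by
        field_simp
      rw [h3, le_div_iff₀ (by positivity)] at h2
      exact h2
  -- the Cauchy-Schwarz inequality for `T - m`
  set a : ℝ := ‖T - m • (1 : H →L[ℝ] H)‖ + 1 with ha
  have ha0 : 0 < a := by positivity
  have hA : ∀ x : H, ‖T x - m • x‖ ^ 2 ≤ a * (inner ℝ (T x) x - m * ‖x‖ ^ 2) := by
    intro x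
    set A : H →L[ℝ] H := T - m • (1 : H →L[ℝ] H) with hAdef
    have hAx : ∀ z, A z = T z - m • z := fun z => rfl
    have hAsym : ∀ y z, inner ℝ (A y) z = inner ℝ y (A z) := by
      intro y z
      rw [hAx, hAx, inner_sub_left, inner_sub_right, hsym, real_inner_smul_left,
        real_inner_smul_right]
    have hApos : ∀ z, 0 ≤ inner ℝ (A z) z := by
      intro z
      rw [hAx, inner_sub_left, real_inner_smul_left, real_inner_self_eq_norm_sq]
      linarith [hmle z]
    have h1 := hApos (x - a⁻¹ • A x)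
    rw [map_sub, map_smul, inner_sub_left, inner_sub_right, inner_sub_right,
      real_inner_smul_left, real_inner_smul_right, real_inner_smul_right,
      real_inner_smul_left, real_inner_self_eq_norm_sq, hAsym (A x) x,
      real_inner_self_eq_norm_sq] at h1
    have h2 : inner ℝ (A (A x)) (A x) ≤ a * ‖A x‖ ^ 2 := by
      calc inner ℝ (A (A x)) (A x) ≤ ‖A (A x)‖ * ‖A x‖ := real_inner_le_norm _ _
        _ ≤ (‖A‖ * ‖A x‖) * ‖A x‖ :=
            mul_le_mul_of_nonneg_right (A.le_opNorm _) (norm_nonneg _)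
        _ ≤ a * ‖A x‖ ^ 2 := by
            rw [mul_assoc, ← pow_two]
            exact mul_le_mul_of_nonneg_right (by rw [ha]; linarith) (sq_nonneg _)
    have h3 : inner ℝ (A x) x = inner ℝ (T x) x - m * ‖x‖ ^ 2 := by
      rw [hAx, inner_sub_left, real_inner_smul_left, real_inner_self_eq_norm_sq]
    rw [← h3, ← hAx]
    have h4 : a⁻¹ * (a⁻¹ * inner ℝ (A (A x)) (A x)) ≤ a⁻¹ * ‖A x‖ ^ 2 := by
      refine mul_le_mul_of_nonneg_left ?_ (by positivity)
      rw [inv_mul_le_iff₀ ha0]
      exact h2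
    have h5 : a⁻¹ * ‖A x‖ ^ 2 ≤ inner ℝ (A x) x := by
      linarith
    rwa [inv_mul_le_iff₀ ha0] at h5
  -- the infimum is larger than `t`
  have hmt : t < m := by
    by_contra hle
    rw [not_lt] at hle
    have hm0 : m < 0 := lt_of_le_of_lt hle ht
    have hseq : ∀ n : ℕ, ∃ x : H, ‖x‖ = 1 ∧ inner ℝ (T x) x < m + 1 / ((n : ℝ) + 1) := by
      intro n
      have hpos : (0 : ℝ) < 1 / ((n : ℝ) + 1) := by positivity
      obtain ⟨_, ⟨x, hx, rfl⟩, hlt⟩ := exists_lt_of_csInf_lt hne
        (show sInf S < m + 1 / ((n : ℝ) + 1) by linarith)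
      exact ⟨x, hx, hlt⟩
    choose x hx1 hx2 using hseq
    have hdiff : Tendsto (fun n => T (x n) - m • x n) atTop (𝓝 0) := by
      rw [tendsto_zero_iff_norm_tendsto_zero]
      have h1 : Tendsto (fun n : ℕ => a * (1 / ((n : ℝ) + 1))) atTop (𝓝 0) := by
        have := tendsto_one_div_add_atTop_nhds_zero_nat (𝕜 := ℝ)
        simpa using this.const_mul a
      have h2 : Tendsto (fun n => ‖T (x n) - m • x n‖ ^ 2) atTop (𝓝 0) := by
        refine squeeze_zero (fun n => sq_nonneg _) (fun n => ?_) h1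
        refine (hA (x n)).trans (mul_le_mul_of_nonneg_left ?_ ha0.le)
        rw [hx1, one_pow, mul_one]
        linarith [hx2 n]
      have h3 := h2.sqrt
      simpa using h3
    obtain ⟨K, hK, hKsub⟩ := hcomp.image_closedBall_subset_compact (r := 1)
    have hmem : ∀ n, T (x n) ∈ K := fun n => hKsub ⟨x n, by simp [hx1 n], rfl⟩
    obtain ⟨y, -, φ, hφ, hlim⟩ := hK.tendsto_subseq hmem
    have h1 : Tendsto (fun n => m • x (φ n)) atTop (𝓝 y) := by
      have := hlim.sub (hdiff.comp hφ.tendsto_atTop)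
      rw [sub_zero] at this
      refine this.congr fun n => ?_
      simp
    have h2 : T y = m • y := by
      have h3 : Tendsto (fun n => T (m • x (φ n))) atTop (𝓝 (T y)) :=
        (T.continuous.tendsto y).comp h1
      have h4 : Tendsto (fun n => T (m • x (φ n))) atTop (𝓝 (m • y)) := by
        have := hlim.const_smul m
        refine this.congr fun n => ?_
        simp
      exact tendsto_nhds_unique h3 h4
    have h5 := hno m hle y h2
    have h6 : Tendsto (fun n => ‖m • x (φ n)‖) atTop (𝓝 ‖y‖) := h1.norm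
    rw [h5, norm_zero] at h6
    have h7 : (fun n => ‖m • x (φ n)‖) = fun _ => |m| := by
      funext n
      rw [norm_smul, hx1, mul_one, Real.norm_eq_abs]
    rw [h7] at h6
    have h8 := tendsto_nhds_unique h6 tendsto_const_nhds
    exact hm0.ne (abs_eq_zero.1 h8.symm)
  -- solve the equation
  have hpos : ∀ x : H, (m - t) * ‖x‖ ^ 2 ≤ inner ℝ (T x - t • x) x := by
    intro x
    rw [inner_sub_left, real_inner_smul_left, real_inner_self_eq_norm_sq]
    linarith [hmle x]
  have hunit : IsUnit (T - t • (1 : H →L[ℝ] H)) := by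
    refine ContinuousLinearMap.isUnit_of_forall_le_norm_inner_map _ (c := ⟨m - t, by linarith⟩)
      (by
        show (0 : ℝ) < m - t
        linarith) fun x => ?_
    show ‖x‖ ^ 2 * (m - t) ≤ ‖inner ℝ (T x - t • x) x‖
    rw [mul_comm]
    exact (hpos x).trans (le_abs_self _)
  obtain ⟨B, hB⟩ := hunit.exists_right_inv
  refine ⟨B b, ?_, ?_⟩
  · have := congrArg (fun f : H →L[ℝ] H => f b) hB
    exact this
  · have h1 : T (B b) - t • B b = b := by
      have := congrArg (fun f : H →L[ℝ] H => f b) hB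
      exact this
    have h2 := hpos (B b)
    rw [h1, real_inner_comm] at h2
    have h3 : B b ≠ 0 := by
      intro h
      rw [h] at h1
      apply hb
      rw [← h1]
      simp
    have h4 : 0 < ‖B b‖ := norm_pos_iff.2 h3
    have : 0 < (m - t) * ‖B b‖ ^ 2 := mul_pos (by linarith) (by positivity)
    linarith

end Pool.Agent.RFK.H50
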